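import Pool.Agent.H33.HH.TC
import Pool.Agent.H86.CV.GU
import Pool.Agent.H86.CV.DV

/-!
# GLk: Selberg's sum for the primes of norm greater than `P` (board hha)
-/

set_option autoImplicit false

open NumberField Complex Filter Topology MeasureTheory
open scoped ContDiff nonZeroDivisors

namespace Pool.Agent.H41.HH

open Pool.Agent.H33.HH Pool.Agent.H28.RC Pool.Agent.H37.CV

section

variable {K : Type} [Field K] [NumberField K]

theorem mem_AP {P y : ℝ} {p : PrI K} : p ∈ AP K P y ↔ np p ≤ y ∧ P < np p := by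
  unfold AP
  rw [Finset.mem_sdiff, Pool.Agent.H96.CV.mem_PM, Pool.Agent.H96.CV.mem_PM, not_le]

open scoped Classical in
theorem mem_DP {P y : ℝ} {S : Finset (PrI K)} :
    S ∈ DP K P y ↔ S ⊆ AP K P y ∧ nS np S ≤ y := by
  unfold DP DS
  rw [Finset.mem_filter, Finset.mem_powerset]

theorem AP_mono {P y z : ℝ} (h : y ≤ z) : AP K P y ⊆ AP K P z := by
  intro p hp
  rw [mem_AP] at hp ⊢
  exact ⟨hp.1.trans h, hp.2⟩

theorem GS_eq (P y : ℝ) : GS np (AP K P y) y = ∑ S ∈ DP K P y, (fS np S)⁻¹ := rfl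

theorem log_le_quarter {x : ℝ} (hx : 0 ≤ x) : Real.log x ≤ 4 * x ^ (1 / 4 : ℝ) := by
  have h := Real.log_le_rpow_div hx (show (0 : ℝ) < 1 / 4 by norm_num)
  refine h.trans (le_of_eq ?_)
  ring

/-- the first part -/
theorem part1 (hGLA : Pool.Agent.H33.HH.T_GLA) (hGLB : Pool.Agent.H33.HH.T_GLB)
    (hGLH : Pool.Agent.H33.HH.T_GLH) [IQ K] (P : ℝ) : ∃ C : ℝ, 0 ≤ C ∧
    ∀ y : ℝ, 1 ≤ y → |GS np (AP K P y) y - rk K P * Real.log y| ≤ C := by
  classical
  obtain ⟨C₁, hC₁, h1⟩ := hGLH K P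
  obtain ⟨C₂, hC₂, h2⟩ := hGLB K
  refine ⟨(C₁ + 4 * |rk K P|) * C₂, by positivity, fun y hy => ?_⟩
  have hy0 : 0 < y := by linarith
  have hly : 0 ≤ Real.log y := Real.log_nonneg hy
  obtain ⟨h3, h4⟩ := h2 (AP K P y)
  have hterm : ∀ A B : Finset (PrI K), |(if nS np A * nS np B ^ 2 ≤ y then
      hs K P (y / (nS np A * nS np B ^ 2)) else 0) - rk K P * Real.log y| ≤
      (C₁ + 4 * |rk K P|) * (nS np A * nS np B ^ 2) ^ (1 / 4 : ℝ) := by
    intro A B
    obtain ⟨N, hN⟩ : ∃ N, N = nS np A * nS np B ^ 2 := ⟨_, rfl⟩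
    have hN1 : 1 ≤ N := by
      have h5 := Pool.Agent.H96.CV.one_le_nS A
      have h6 := Pool.Agent.H96.CV.one_le_nS B
      rw [hN]
      exact one_le_mul_of_one_le_of_one_le h5 (one_le_pow₀ h6)
    rw [← hN]
    have hN0 : 0 < N := by linarith
    have hlN : 0 ≤ Real.log N := Real.log_nonneg hN1
    have hq := log_le_quarter hN0.le
    have hq1 : 1 ≤ N ^ (1 / 4 : ℝ) := Real.one_le_rpow hN1 (by norm_num)
    have hr : 0 ≤ |rk K P| := abs_nonneg _
    have hgoal : C₁ + |rk K P| * Real.log N ≤ (C₁ + 4 * |rk K P|) * N ^ (1 / 4 : ℝ) := by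
      have h7 := mul_le_mul_of_nonneg_left hq hr
      have h8 := mul_le_mul_of_nonneg_left hq1 hC₁
      linarith
    refine le_trans ?_ hgoal
    split_ifs with h
    · have h5 : 1 ≤ y / N := by rwa [le_div_iff₀ hN0, one_mul]
      have h6 := h1 (y / N) h5
      have h7 : Real.log (y / N) = Real.log y - Real.log N := Real.log_div hy0.ne' hN0.ne'
      have h8 : hs K P (y / N) - rk K P * Real.log y =
          (hs K P (y / N) - rk K P * Real.log (y / N)) + (-(rk K P * Real.log N)) := by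
        rw [h7]
        ring
      rw [h8]
      refine (abs_add_le _ _).trans (add_le_add h6 ?_)
      rw [abs_neg, abs_mul, abs_of_nonneg hlN]
    · push Not at h
      have h5 : Real.log y ≤ Real.log N := Real.log_le_log hy0 h.le
      rw [zero_sub, abs_neg, abs_mul, abs_of_nonneg hly]
      have := mul_le_mul_of_nonneg_left h5 hr
      linarith
  have h5 : GS np (AP K P y) y - rk K P * Real.log y =
      ∑ A ∈ (AP K P y).powerset, ∑ B ∈ (AP K P y \ A).powerset, gw A B *
        ((if nS np A * nS np B ^ 2 ≤ y then hs K P (y / (nS np A * nS np B ^ 2)) else 0) -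
          rk K P * Real.log y) := by
    rw [hGLA K P y hy]
    generalize rk K P * Real.log y = c
    have h6 : c = (∑ A ∈ (AP K P y).powerset,
        ∑ B ∈ (AP K P y \ A).powerset, gw A B) * c := by
      rw [h3, one_mul]
    conv_lhs => rw [h6]
    rw [Finset.sum_mul, ← Finset.sum_sub_distrib]
    refine Finset.sum_congr rfl fun A _ => ?_
    rw [Finset.sum_mul, ← Finset.sum_sub_distrib]
    refine Finset.sum_congr rfl fun B _ => ?_
    ring
  rw [h5]
  calc _ ≤ ∑ A ∈ (AP K P y).powerset, ∑ B ∈ (AP K P y \ A).powerset,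
        (C₁ + 4 * |rk K P|) * (|gw A B| * (nS np A * nS np B ^ 2) ^ (1 / 4 : ℝ)) := by
        refine (Finset.abs_sum_le_sum_abs _ _).trans (Finset.sum_le_sum fun A _ => ?_)
        refine (Finset.abs_sum_le_sum_abs _ _).trans (Finset.sum_le_sum fun B _ => ?_)
        rw [abs_mul]
        refine (mul_le_mul_of_nonneg_left (hterm A B) (abs_nonneg _)).trans (le_of_eq ?_)
        ring
    _ = (C₁ + 4 * |rk K P|) * ∑ A ∈ (AP K P y).powerset, ∑ B ∈ (AP K P y \ A).powerset,
        |gw A B| * (nS np A * nS np B ^ 2) ^ (1 / 4 : ℝ) := by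
        rw [Finset.mul_sum]
        refine Finset.sum_congr rfl fun A _ => ?_
        rw [Finset.mul_sum]
    _ ≤ _ := mul_le_mul_of_nonneg_left h4 (by positivity)

theorem sum_nat (m : ℕ) : (∑ i ∈ Finset.range m, (i : ℝ)) = m * (m - 1) / 2 := by
  induction m with
  | zero => simp
  | succ k ih =>
    rw [Finset.sum_range_succ, ih]
    push_cast
    ring

/-- the second part -/
theorem part2 (P r C : ℝ) (hC : 0 ≤ C)
    (h : ∀ y : ℝ, 1 ≤ y → |GS np (AP K P y) y - r * Real.log y| ≤ C) (y : ℝ) (hy : 1 ≤ y) :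
    ∑ S ∈ DP K P y, Real.log (nS np S) / fS np S ≤
      r * Real.log y ^ 2 / 2 + (2 * C + 2 * |r|) * (1 + Real.log y) := by
  classical
  have hy0 : 0 < y := by linarith
  obtain ⟨L, hL⟩ : ∃ L, L = Real.log y := ⟨_, rfl⟩
  have hL0 : 0 ≤ L := by rw [hL]; exact Real.log_nonneg hy
  obtain ⟨m, hm⟩ : ∃ m : ℕ, m = ⌊L⌋₊ := ⟨_, rfl⟩
  have hm1 : (m : ℝ) ≤ L := by rw [hm]; exact Nat.floor_le hL0
  have hm2 : L < m + 1 := by rw [hm]; exact Nat.lt_floor_add_one L
  rw [← hL]
  have hexp : ∀ i < m, Real.exp i ≤ y := by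
    intro i hi
    rw [← Real.exp_log hy0, ← hL]
    refine Real.exp_le_exp.2 ?_
    have : (i : ℝ) ≤ m := by exact_mod_cast hi.le
    linarith
  -- the lower bounds of G
  have hG : ∀ i : ℕ, r * i - C ≤ GS np (AP K P (Real.exp i)) (Real.exp i) := by
    intro i
    have h1 := h (Real.exp i) (Real.one_le_exp (Nat.cast_nonneg i))
    rw [Real.log_exp] at h1
    have := (abs_le.1 h1).1
    linarith
  have hsub : ∀ i < m, DP K P (Real.exp i) ⊆
      (DP K P y).filter (fun S => nS np S ≤ Real.exp i) := by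
    intro i hi S hS
    obtain ⟨h1, h2⟩ := mem_DP.1 hS
    refine Finset.mem_filter.2 ⟨mem_DP.2 ⟨h1.trans (AP_mono (hexp i hi)), h2.trans (hexp i hi)⟩, h2⟩
  -- the counting
  have hcount : ∀ S ∈ DP K P y, ∑ i ∈ Finset.range m, (if nS np S ≤ Real.exp i then (1 : ℝ) else 0) ≤
      L - Real.log (nS np S) := by
    intro S hS
    obtain ⟨-, h2⟩ := mem_DP.1 hS
    obtain ⟨t, ht⟩ : ∃ t, t = Real.log (nS np S) := ⟨_, rfl⟩
    have ht1 : t ≤ L := by
      rw [ht, hL]
      exact Real.log_le_log (Pool.Agent.H96.CV.nS_pos S) h2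
    have hc : ((Finset.range m).filter (fun i : ℕ => nS np S ≤ Real.exp i)).card ≤
        m - ⌈t⌉₊ := by
      have h3 : (Finset.range m).filter (fun i : ℕ => nS np S ≤ Real.exp i) ⊆
          Finset.Ico ⌈t⌉₊ m := by
        intro i hi
        obtain ⟨h4, h5⟩ := Finset.mem_filter.1 hi
        refine Finset.mem_Ico.2 ⟨Nat.ceil_le.2 ?_, Finset.mem_range.1 h4⟩
        have h6 := Real.log_le_log (Pool.Agent.H96.CV.nS_pos S) h5
        rwa [Real.log_exp, ← ht] at h6
      have h4 := Finset.card_le_card h3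
      rwa [Nat.card_Ico] at h4
    rw [← Finset.sum_filter, Finset.sum_const, nsmul_eq_mul, mul_one, ← ht]
    rcases Nat.le_total ⌈t⌉₊ m with hle | hle
    · have h9 : (((Finset.range m).filter (fun i : ℕ => nS np S ≤ Real.exp i)).card : ℝ) ≤
          ((m - ⌈t⌉₊ : ℕ) : ℝ) := by exact_mod_cast hc
      rw [Nat.cast_sub hle] at h9
      have h10 := Nat.le_ceil t
      linarith
    · have h9 : ((Finset.range m).filter (fun i : ℕ => nS np S ≤ Real.exp i)).card = 0 := by
        omega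
      rw [h9, Nat.cast_zero]
      linarith
  -- the main inequality
  have key : ∑ i ∈ Finset.range m, GS np (AP K P (Real.exp i)) (Real.exp i) ≤
      ∑ S ∈ DP K P y, (L - Real.log (nS np S)) / fS np S := by
    calc ∑ i ∈ Finset.range m, GS np (AP K P (Real.exp i)) (Real.exp i)
        ≤ ∑ i ∈ Finset.range m, ∑ S ∈ DP K P y,
          (if nS np S ≤ Real.exp i then (1 : ℝ) else 0) * (fS np S)⁻¹ := by
          refine Finset.sum_le_sum fun i hi => ?_
          have hi' := Finset.mem_range.1 hi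
          rw [GS_eq]
          have h1 : ∑ S ∈ DP K P y, (if nS np S ≤ Real.exp i then (1 : ℝ) else 0) * (fS np S)⁻¹ =
              ∑ S ∈ (DP K P y).filter (fun S => nS np S ≤ Real.exp i), (fS np S)⁻¹ := by
            rw [Finset.sum_filter]
            refine Finset.sum_congr rfl fun S _ => ?_
            split_ifs <;> simp
          rw [h1]
          refine Finset.sum_le_sum_of_subset_of_nonneg (hsub i hi') fun S _ _ => ?_
          exact (inv_pos.2 (Pool.Agent.H96.CV.fS_pos S)).le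
      _ = ∑ S ∈ DP K P y, (∑ i ∈ Finset.range m,
          (if nS np S ≤ Real.exp i then (1 : ℝ) else 0)) * (fS np S)⁻¹ := by
          rw [Finset.sum_comm]
          refine Finset.sum_congr rfl fun S _ => ?_
          rw [Finset.sum_mul]
      _ ≤ ∑ S ∈ DP K P y, (L - Real.log (nS np S)) / fS np S := by
          refine Finset.sum_le_sum fun S hS => ?_
          rw [div_eq_mul_inv]
          exact mul_le_mul_of_nonneg_right (hcount S hS)
            (inv_pos.2 (Pool.Agent.H96.CV.fS_pos S)).le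
  have hlow : r * ((m : ℝ) * (m - 1) / 2) - C * m ≤
      ∑ i ∈ Finset.range m, GS np (AP K P (Real.exp i)) (Real.exp i) := by
    refine le_trans (le_of_eq ?_) (Finset.sum_le_sum fun i _ => hG i)
    rw [Finset.sum_sub_distrib, ← Finset.mul_sum, sum_nat, Finset.sum_const, Finset.card_range,
      nsmul_eq_mul]
    ring
  have hfin : ∑ S ∈ DP K P y, (L - Real.log (nS np S)) / fS np S =
      GS np (AP K P y) y * L - ∑ S ∈ DP K P y, Real.log (nS np S) / fS np S := by
    rw [GS_eq, Finset.sum_mul, ← Finset.sum_sub_distrib]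
    refine Finset.sum_congr rfl fun S _ => ?_
    rw [sub_div]
    ring
  have hup : GS np (AP K P y) y ≤ r * L + C := by
    have h1 := (abs_le.1 (h y hy)).2
    rw [← hL] at h1
    linarith
  have hup2 : GS np (AP K P y) y * L ≤ (r * L + C) * L := mul_le_mul_of_nonneg_right hup hL0
  have hm0 : (0 : ℝ) ≤ m := Nat.cast_nonneg m
  -- the quadratic term
  have hquad : r * (L ^ 2 / 2) - |r| * (2 * (1 + L)) ≤ r * ((m : ℝ) * (m - 1) / 2) := by
    have h1 : |L ^ 2 / 2 - (m : ℝ) * (m - 1) / 2| ≤ 2 * (1 + L) := by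
      rw [abs_le]
      constructor
      · nlinarith
      · nlinarith
    have h2 : r * (L ^ 2 / 2) - r * ((m : ℝ) * (m - 1) / 2) ≤ |r| * (2 * (1 + L)) := by
      rw [← mul_sub]
      refine (le_abs_self _).trans ?_
      rw [abs_mul]
      exact mul_le_mul_of_nonneg_left h1 (abs_nonneg _)
    linarith
  have hCm : C * m ≤ C * L := mul_le_mul_of_nonneg_left hm1 hC
  have : (r * L + C) * L = r * L ^ 2 + C * L := by ring
  nlinarith

end

theorem pf_GLk (h1 : Pool.Agent.H33.HH.T_GLA) (h2 : Pool.Agent.H33.HH.T_GLB)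
    (h3 : Pool.Agent.H33.HH.T_GLH) (_h4 : Pool.Agent.H33.HH.T_IDF) : Pool.Agent.H33.HH.T_GLk := by
  intro K _ _ _ P
  obtain ⟨C, hC, h5⟩ := part1 (K := K) h1 h2 h3 P
  obtain ⟨C', -, -, h6⟩ := Pool.Agent.H86.CV.pf_GU Pool.Agent.H86.CV.pf_DV K
  have hr : 0 ≤ |rk K P| := abs_nonneg _
  have hC' : 0 ≤ |C'| := abs_nonneg _
  refine ⟨2 * C + 2 * |rk K P| + |C'|, by positivity, fun y hy => ?_, fun y hy => ?_, fun X => ?_⟩
  · exact (h5 y hy).trans (by linarith)
  · refine (part2 P (rk K P) C hC h5 y hy).trans ?_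
    have hly : 0 ≤ Real.log y := Real.log_nonneg hy
    have : 0 ≤ |C'| * (1 + Real.log y) := by positivity
    linarith
  · exact (h6 X).trans ((le_abs_self _).trans (by linarith))

end Pool.Agent.H41.HH
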